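import Pool.Agent.Helper76.P17.StC

/-!
# Project P17 (levels `17^n`), module E1A: even exponent, the eighteen plane functions of a balanced new symbol

The first part is `Pool/Agent/Helper99/P13/M_E1A.lean` with `17`.
-/

set_option autoImplicit false

namespace Pool.Agent.Helper55.P17

open Pool.Agent.Helper76.P17
open Pool.Agent.Helper14.CV (Homog EqC act ne_zero_of_det)
open Pool.Agent.Helper28.WK (SymP)

private lemma z1 (j : ℕ) : (17 : ZMod (17 ^ (j + 1))) ^ (j + 1) = 0 := by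
  have h := ZMod.natCast_self (17 ^ (j + 1))
  push_cast at h
  exact h

private lemma z2 (j : ℕ) : (17 : ZMod (17 ^ (j + 1))) ^ (j + 2) = 0 := by
  rw [pow_succ (17 : ZMod (17 ^ (j + 1))) (j + 1), z1, zero_mul]

/-- `α + 289 γ x` is a unit -/
private lemma un (j : ℕ) {α β γ δ : ℤ} (h : α * δ - 289 * β * γ = 1) (x : ZMod (17 ^ (j + 1))) :
    IsUnit ((α : ZMod (17 ^ (j + 1))) + 17 ^ (1 + 1) * γ * x) := by
  obtain ⟨X, rfl⟩ := ZMod.intCast_surjective x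
  have : IsUnit (((α + 17 ^ (1 + 1) * γ * X : ℤ) : ZMod (17 ^ (j + 1)))) := by
    rw [ZMod.coe_int_isUnit_iff_isCoprime]
    push_cast
    exact IsCoprime.pow_left ⟨-17 * (β * γ) - 17 * (γ * X * δ), δ, by linear_combination h⟩
  push_cast at this
  have e : (289 : ZMod (17 ^ (j + 1))) = 17 ^ (1 + 1) := by norm_num
  rwa [e] at this

private lemma exM (hPlA : S17PlA) (j : ℕ) (x y : ZMod (17 ^ (j + 1))) :
    ∃ b c d : ℤ, Pl17 1 1 b c d x y :=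
  ⟨_, _, _, hPlA 1 (j + 1) (j + 1) x y⟩

private lemma nz {a b c d : ℤ} (h : a * d - 17 ^ (1 + 1) * b * c = 1) {u1 u2 : ℤ}
    (hu : u1 ≠ 0 ∨ u2 ≠ 0) : a * u1 + 17 ^ 1 * b * u2 ≠ 0 ∨ 17 * c * u1 + d * u2 ≠ 0 :=
  ne_zero_of_det (a := a) (b := 17 ^ 1 * b) (c := 17 * c) (d := d)
    (by intro h0; have : (1 : ℤ) = 0 := by linear_combination h0 - h
        exact absurd this one_ne_zero) hu

/-- the matrix the product of (1 17^(j+1) i; 0 1) g -/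
private lemma plT (j : ℕ) (i : ℤ) {b c d : ℤ} {x y : ZMod (17 ^ (j + 1))}
    (h : Pl17 1 1 b c d x y) :
    Pl17 1 (1 + 17 ^ (j + 2) * i * c) (b + 17 ^ j * i * d) c d
      (x + (i : ZMod (17 ^ (j + 1))) * 17 ^ j) y := by
  obtain ⟨h1, h2, h3⟩ := h
  have e : (d : ZMod (17 ^ (j + 1))) = 1 + 289 * b * c := by
    have := congrArg (Int.cast : ℤ → ZMod (17 ^ (j + 1))) h1
    push_cast at this
    linear_combination this
  refine ⟨by linear_combination h1, ?_, h3⟩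
  push_cast at h2 ⊢
  linear_combination h2 + (i : ZMod (17 ^ (j + 1))) * 17 ^ j * e +
    17 * (i : ZMod (17 ^ (j + 1))) * b * c * z1 j -
    (x + i * 17 ^ j) * (i : ZMod (17 ^ (j + 1))) * (c : ZMod (17 ^ (j + 1))) * z2 j

/-- the matrix (1 0; 17^(j+1) i 1) g -/
private lemma plL (j : ℕ) (i : ℤ) {b c d : ℤ} {x y : ZMod (17 ^ (j + 1))}
    (h : Pl17 1 1 b c d x y) :
    Pl17 1 1 b (c + 17 ^ j * i) (d + 17 ^ (j + 2) * i * b) x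
      (y + (i : ZMod (17 ^ (j + 1))) * 17 ^ j) := by
  obtain ⟨h1, h2, h3⟩ := h
  have e : (d : ZMod (17 ^ (j + 1))) = 1 + 289 * b * c := by
    have := congrArg (Int.cast : ℤ → ZMod (17 ^ (j + 1))) h1
    push_cast at this
    linear_combination this
  refine ⟨by linear_combination h1, h2, ?_⟩
  push_cast
  linear_combination h3 - (i : ZMod (17 ^ (j + 1))) * 17 ^ j * e -
    17 * (i : ZMod (17 ^ (j + 1))) * b * c * z1 j -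
    (y + i * 17 ^ j) * (i : ZMod (17 ^ (j + 1))) * (b : ZMod (17 ^ (j + 1))) * z2 j

/-- the matrix `g m` -/
private lemma plM {q : ℕ} {a b c d α β γ δ : ℤ} {x y x' y' : ZMod q} (h : Pl17 1 a b c d x y)
    (hm : α * δ - 289 * β * γ = 1)
    (hx : x' * (α + 289 * γ * x) = β + δ * x) (hy : y' * (δ + 289 * β * y) = γ + α * y) :
    Pl17 1 (a * α + 289 * b * γ) (a * β + b * δ) (c * α + d * γ) (289 * c * β + d * δ) x' y' := by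
  obtain ⟨h1, h2, h3⟩ := h
  refine ⟨by linear_combination (a * d - 289 * b * c) * hm + h1, ?_, ?_⟩
  · push_cast
    rw [h2]
    linear_combination -(a : ZMod q) * hx
  · push_cast
    rw [h3]
    linear_combination -(d : ZMod q) * hy

private lemma homm {G : ℤ → ℤ → ℂ} (h : Homog G) {p q : ℤ} (hpq : p ≠ 0 ∨ q ≠ 0) :
    G (-p) (-q) = G p q := by
  have := h (-1) p q (by norm_num) hpq
  rwa [neg_one_mul, neg_one_mul] at this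

/-- the value at `g u` -/
private def V (G : ℤ → ℤ → ℂ) (a b c d u1 u2 : ℤ) : ℂ :=
  G (a * u1 + 17 ^ 1 * b * u2) (17 * c * u1 + d * u2)

section

variable {j : ℕ} {G : ℤ → ℤ → ℂ}

/-- the value of the symbol by any matrix with the given coordinates -/
private lemma ed (hEdg : S17Edg) (hS : SymP 17 (j + 2) (j + 2) G) {u1 u2 v1 v2 : ℤ}
    (hu : u1 ≠ 0 ∨ u2 ≠ 0) (hv : v1 ≠ 0 ∨ v2 ≠ 0) {a b c d : ℤ} {x y : ZMod (17 ^ (j + 1))}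
    (h : Pl17 1 a b c d x y) :
    edge17 1 u1 u2 v1 v2 G x y = V G a b c d u1 u2 - V G a b c d v1 v2 :=
  hEdg ℂ _ 1 (j + 1) (j + 1) G hS u1 u2 v1 v2 hu hv x y a b c d h

private lemma Vneg (hS : SymP 17 (j + 2) (j + 2) G) {a b c d : ℤ} {x y : ZMod (17 ^ (j + 1))}
    (h : Pl17 1 a b c d x y) {u1 u2 : ℤ} (hu : u1 ≠ 0 ∨ u2 ≠ 0) :
    V G a b c d (-u1) (-u2) = V G a b c d u1 u2 := by
  have e := homm hS.1 (nz h.1 hu)
  unfold V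
  rw [← e]
  congr 1 <;> ring

private lemma shx (hPlA : S17PlA) (hEdg : S17Edg) (hB : BalE (j + 2) G) {u1 u2 v1 v2 : ℤ}
    (hu : u1 ≠ 0 ∨ u2 ≠ 0) (hv : v1 ≠ 0 ∨ v2 ≠ 0) (x y : ZMod (17 ^ (j + 1))) :
    ∑ i ∈ Finset.range 17,
      edge17 1 u1 u2 v1 v2 G (x + (i : ZMod (17 ^ (j + 1))) * 17 ^ j) y = 0 := by
  obtain ⟨hS, hT, -, -, -⟩ := hB
  obtain ⟨b, c, d, h⟩ := exM hPlA j x y
  have e := hT.diff (nz h.1 hu) (nz h.1 hv)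
  simp only [Finset.sum_apply, act, Pi.zero_apply, sub_zero] at e
  rw [← Finset.sum_sub_distrib] at e
  rw [← e]
  refine Finset.sum_congr rfl fun i _ => ?_
  have g := plT j (i : ℤ) h
  rw [Int.cast_natCast] at g
  rw [ed hEdg hS hu hv g]
  have ej : j + 2 - 1 = j + 1 := rfl
  unfold V
  rw [ej]
  congr 1 <;> congr 1 <;> ring

private lemma shy (hPlA : S17PlA) (hEdg : S17Edg) (hB : BalE (j + 2) G) {u1 u2 v1 v2 : ℤ}
    (hu : u1 ≠ 0 ∨ u2 ≠ 0) (hv : v1 ≠ 0 ∨ v2 ≠ 0) (x y : ZMod (17 ^ (j + 1))) :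
    ∑ i ∈ Finset.range 17,
      edge17 1 u1 u2 v1 v2 G x (y + (i : ZMod (17 ^ (j + 1))) * 17 ^ j) = 0 := by
  obtain ⟨hS, -, hT, -, -⟩ := hB
  obtain ⟨b, c, d, h⟩ := exM hPlA j x y
  have e := hT.diff (nz h.1 hu) (nz h.1 hv)
  simp only [Finset.sum_apply, act, Pi.zero_apply, sub_zero] at e
  rw [← Finset.sum_sub_distrib] at e
  rw [← e]
  refine Finset.sum_congr rfl fun i _ => ?_
  have g := plL j (i : ℤ) h
  rw [Int.cast_natCast] at g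
  rw [ed hEdg hS hu hv g]
  have ej : j + 2 - 1 = j + 1 := rfl
  unfold V
  rw [ej]
  congr 1 <;> congr 1 <;> ring

/-- conjugation by `b = (0 1; 1 0)` -/
private lemma swl (hPlA : S17PlA) (hEdg : S17Edg) (hB : BalE (j + 2) G) {u1 u2 v1 v2 : ℤ}
    (hu : u1 ≠ 0 ∨ u2 ≠ 0) (hv : v1 ≠ 0 ∨ v2 ≠ 0) (x y : ZMod (17 ^ (j + 1))) :
    edge17 1 u1 u2 v1 v2 G y x = -edge17 1 u2 u1 v2 v1 G x y := by
  obtain ⟨hS, -, -, hW, hT⟩ := hB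
  obtain ⟨b, c, d, h⟩ := exM hPlA j x y
  have h' : Pl17 1 d c b 1 y x := by
    obtain ⟨h1, h2, h3⟩ := h
    exact ⟨by linear_combination h1, h3, h2⟩
  have hu' : u2 ≠ 0 ∨ u1 ≠ 0 := hu.symm
  have hv' : v2 ≠ 0 ∨ v1 ≠ 0 := hv.symm
  rw [ed hEdg hS hu' hv' h, ed hEdg hS hu hv h']
  have e := hW.diff (nz h.1 hu') (nz h.1 hv')
  have nS : ∀ {s t : ℤ}, (s ≠ 0 ∨ t ≠ 0) → (0 * s + -1 * t ≠ 0 ∨ 1 * s + 0 * t ≠ 0) := by
    intro s t hst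
    simp only [zero_mul, zero_add, one_mul, add_zero, neg_mul, ne_eq, neg_eq_zero]
    exact hst.symm
  have f := hT.diff (nS (nz h.1 hu')) (nS (nz h.1 hv'))
  simp only [act, Pi.neg_apply] at e f
  rw [← f] at e
  unfold V
  have e1 : ∀ s t : ℤ, -1 * (0 * (1 * t + 17 ^ 1 * b * s) + -1 * (17 * c * t + d * s)) +
      0 * (1 * (1 * t + 17 ^ 1 * b * s) + 0 * (17 * c * t + d * s)) = d * s + 17 ^ 1 * c * t := by
    intro s t; ring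
  have e2 : ∀ s t : ℤ, 0 * (0 * (1 * t + 17 ^ 1 * b * s) + -1 * (17 * c * t + d * s)) +
      1 * (1 * (1 * t + 17 ^ 1 * b * s) + 0 * (17 * c * t + d * s)) = 17 * b * s + 1 * t := by
    intro s t; ring
  rw [e1 u1 u2, e1 v1 v2, e2 u1 u2, e2 v1 v2] at e
  rw [e]
  ring

/-- conjugation by `*` -/
private lemma ngl (hPlA : S17PlA) (hEdg : S17Edg) (hB : BalE (j + 2) G) {u1 u2 v1 v2 : ℤ}
    (hu : u1 ≠ 0 ∨ u2 ≠ 0) (hv : v1 ≠ 0 ∨ v2 ≠ 0) (x y : ZMod (17 ^ (j + 1))) :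
    edge17 1 u1 u2 v1 v2 G (-x) (-y) = edge17 1 (-u1) u2 (-v1) v2 G x y := by
  obtain ⟨hS, -, -, -, hW⟩ := hB
  obtain ⟨b, c, d, h⟩ := exM hPlA j x y
  have h' : Pl17 1 1 (-b) (-c) d (-x) (-y) := by
    obtain ⟨h1, h2, h3⟩ := h
    refine ⟨by linear_combination h1, ?_, ?_⟩
    · push_cast at h2 ⊢; linear_combination -h2
    · push_cast; linear_combination -h3
  have hu' : -u1 ≠ 0 ∨ u2 ≠ 0 := by rcases hu with h | h <;> [left; right] <;> simpa using h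
  have hv' : -v1 ≠ 0 ∨ v2 ≠ 0 := by rcases hv with h | h <;> [left; right] <;> simpa using h
  rw [ed hEdg hS hu' hv' h, ed hEdg hS hu hv h']
  have e := hW.diff (nz h.1 hu') (nz h.1 hv')
  simp only [act] at e
  unfold V
  have e1 : ∀ s t : ℤ, -1 * (1 * -s + 17 ^ 1 * b * t) + 0 * (17 * c * -s + d * t) =
      1 * s + 17 ^ 1 * -b * t := by intro s t; ring
  have e2 : ∀ s t : ℤ, 0 * (1 * -s + 17 ^ 1 * b * t) + 1 * (17 * c * -s + d * t) =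
      17 * -c * s + d * t := by intro s t; ring
  rw [e1 u1 u2, e1 v1 v2, e2 u1 u2, e2 v1 v2] at e
  exact e

/-- multiplication by a matrix on the right -/
private lemma rm (hPlA : S17PlA) (hEdg : S17Edg) (hB : BalE (j + 2) G) {u1 u2 v1 v2 : ℤ}
    (hu : u1 ≠ 0 ∨ u2 ≠ 0) (hv : v1 ≠ 0 ∨ v2 ≠ 0) {α β γ δ : ℤ}
    (hm : α * δ - 289 * β * γ = 1) (p : Pt (j + 1)) :
    edge17 1 u1 u2 v1 v2 G (trp 1 α β γ δ p).1 (trp 1 α β γ δ p).2 =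
      edge17 1 (α * u1 + 17 * β * u2) (17 * γ * u1 + δ * u2) (α * v1 + 17 * β * v2)
        (17 * γ * v1 + δ * v2) G p.1 p.2 := by
  obtain ⟨b, c, d, h⟩ := exM hPlA j p.1 p.2
  have hm' : δ * α - 289 * γ * β = 1 := by linear_combination hm
  have hx : (trp 1 α β γ δ p).1 * ((α : ZMod (17 ^ (j + 1))) + 289 * γ * p.1) = β + δ * p.1 := by
    have := ZMod.inv_mul_of_unit _ (un j hm p.1)
    unfold trp
    rw [mul_assoc]
    have e : (289 : ZMod (17 ^ (j + 1))) = 17 ^ (1 + 1) := by norm_num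
    rw [e, this, mul_one]
  have hy : (trp 1 α β γ δ p).2 * ((δ : ZMod (17 ^ (j + 1))) + 289 * β * p.2) = γ + α * p.2 := by
    have := ZMod.inv_mul_of_unit _ (un j hm' p.2)
    unfold trp
    rw [mul_assoc]
    have e : (289 : ZMod (17 ^ (j + 1))) = 17 ^ (1 + 1) := by norm_num
    rw [e, this, mul_one]
  have h' := plM h hm hx hy
  have hdet : α * δ - 17 * β * (17 * γ) ≠ 0 := by
    intro h0
    have : (1 : ℤ) = 0 := by linear_combination h0 - hm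
    exact absurd this one_ne_zero
  have hu' := ne_zero_of_det (a := α) (b := 17 * β) (c := 17 * γ) (d := δ) hdet hu
  have hv' := ne_zero_of_det (a := α) (b := 17 * β) (c := 17 * γ) (d := δ) hdet hv
  rw [ed hEdg hB.1 hu' hv' h, ed hEdg hB.1 hu hv h']
  unfold V
  congr 1 <;> congr 1 <;> ring

private lemma sw_rw (hPlA : S17PlA) (hEdg : S17Edg) (hB : BalE (j + 2) G) {u1 u2 v1 v2 : ℤ}
    (hu : u1 ≠ 0 ∨ u2 ≠ 0) (hv : v1 ≠ 0 ∨ v2 ≠ 0) (p : Pt (j + 1)) :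
    edge17 1 u1 u2 v1 v2 G (sw p).1 (sw p).2 = -edge17 1 u2 u1 v2 v1 G p.1 p.2 :=
  swl hPlA hEdg hB hu hv p.1 p.2

private lemma ng_rw (hPlA : S17PlA) (hEdg : S17Edg) (hB : BalE (j + 2) G) {u1 u2 v1 v2 : ℤ}
    (hu : u1 ≠ 0 ∨ u2 ≠ 0) (hv : v1 ≠ 0 ∨ v2 ≠ 0) (p : Pt (j + 1)) :
    edge17 1 u1 u2 v1 v2 G (ng p).1 (ng p).2 = edge17 1 (-u1) u2 (-v1) v2 G p.1 p.2 :=
  ngl hPlA hEdg hB hu hv p.1 p.2

/-- circles: a matrix after `sw` -/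
private lemma ci (hPlA : S17PlA) (hEdg : S17Edg) (hB : BalE (j + 2) G) {α β γ δ : ℤ}
    (hm : α * δ - 289 * β * γ = 1) {u1 u2 v1 v2 : ℤ}
    (hu : u1 ≠ 0 ∨ u2 ≠ 0) (hv : v1 ≠ 0 ∨ v2 ≠ 0) (p : Pt (j + 1)) :
    edge17 1 u1 u2 v1 v2 G (trp 1 α β γ δ (sw p)).1 (trp 1 α β γ δ (sw p)).2 =
      -edge17 1 (17 * γ * u1 + δ * u2) (α * u1 + 17 * β * u2) (17 * γ * v1 + δ * v2)
        (α * v1 + 17 * β * v2) G p.1 p.2 := by
  have hdet : α * δ - 17 * β * (17 * γ) ≠ 0 := by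
    intro h0
    have : (1 : ℤ) = 0 := by linear_combination h0 - hm
    exact absurd this one_ne_zero
  rw [rm hPlA hEdg hB hu hv hm (sw p)]
  exact sw_rw hPlA hEdg hB
    (ne_zero_of_det (a := α) (b := 17 * β) (c := 17 * γ) (d := δ) hdet hu)
    (ne_zero_of_det (a := α) (b := 17 * β) (c := 17 * γ) (d := δ) hdet hv) p

private lemma nng {s t : ℤ} (h : s ≠ 0 ∨ t ≠ 0) : -s ≠ 0 ∨ t ≠ 0 := by
  rcases h with h | h
  · exact Or.inl (neg_ne_zero.2 h)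
  · exact Or.inr h

private lemma dne {α β γ δ : ℤ} (hm : α * δ - 289 * β * γ = 1) : α * δ - 17 * β * (17 * γ) ≠ 0 := by
  intro h0
  have : (1 : ℤ) = 0 := by linear_combination h0 - hm
  exact absurd this one_ne_zero

/-- circles: a matrix after `sw` -/
private lemma ciE (hPlA : S17PlA) (hEdg : S17Edg) (hB : BalE (j + 2) G) {α β γ δ : ℤ}
    (hm : α * δ - 289 * β * γ = 1) {u1 u2 v1 v2 : ℤ} (s1 s2 t1 t2 : ℤ)
    (hu : u1 ≠ 0 ∨ u2 ≠ 0) (hv : v1 ≠ 0 ∨ v2 ≠ 0) (p : Pt (j + 1))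
    (e1 : 17 * γ * u1 + δ * u2 = s1) (e2 : α * u1 + 17 * β * u2 = s2)
    (e3 : 17 * γ * v1 + δ * v2 = t1) (e4 : α * v1 + 17 * β * v2 = t2) :
    edge17 1 u1 u2 v1 v2 G (trp 1 α β γ δ (sw p)).1 (trp 1 α β γ δ (sw p)).2 =
      -edge17 1 s1 s2 t1 t2 G p.1 p.2 := by
  subst e1 e2 e3 e4
  exact ci hPlA hEdg hB hm hu hv p

/-- a matrix after `ng` -/
private lemma rgE (hPlA : S17PlA) (hEdg : S17Edg) (hB : BalE (j + 2) G) {α β γ δ : ℤ}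
    (hm : α * δ - 289 * β * γ = 1) {u1 u2 v1 v2 : ℤ} (s1 s2 t1 t2 : ℤ)
    (hu : u1 ≠ 0 ∨ u2 ≠ 0) (hv : v1 ≠ 0 ∨ v2 ≠ 0) (p : Pt (j + 1))
    (e1 : -(α * u1 + 17 * β * u2) = s1) (e2 : 17 * γ * u1 + δ * u2 = s2)
    (e3 : -(α * v1 + 17 * β * v2) = t1) (e4 : 17 * γ * v1 + δ * v2 = t2) :
    edge17 1 u1 u2 v1 v2 G (trp 1 α β γ δ (ng p)).1 (trp 1 α β γ δ (ng p)).2 =
      edge17 1 s1 s2 t1 t2 G p.1 p.2 := by
  subst e1 e2 e3 e4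
  have hdet := dne hm
  rw [rm hPlA hEdg hB hu hv hm (ng p)]
  exact ng_rw hPlA hEdg hB
    (ne_zero_of_det (a := α) (b := 17 * β) (c := 17 * γ) (d := δ) hdet hu)
    (ne_zero_of_det (a := α) (b := 17 * β) (c := 17 * γ) (d := δ) hdet hv) p

/-- a matrix after `ng ∘ sw` -/
private lemma riE (hPlA : S17PlA) (hEdg : S17Edg) (hB : BalE (j + 2) G) {α β γ δ : ℤ}
    (hm : α * δ - 289 * β * γ = 1) {u1 u2 v1 v2 : ℤ} (s1 s2 t1 t2 : ℤ)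
    (hu : u1 ≠ 0 ∨ u2 ≠ 0) (hv : v1 ≠ 0 ∨ v2 ≠ 0) (p : Pt (j + 1))
    (e1 : 17 * γ * u1 + δ * u2 = s1) (e2 : -(α * u1 + 17 * β * u2) = s2)
    (e3 : 17 * γ * v1 + δ * v2 = t1) (e4 : -(α * v1 + 17 * β * v2) = t2) :
    edge17 1 u1 u2 v1 v2 G (trp 1 α β γ δ (ng (sw p))).1 (trp 1 α β γ δ (ng (sw p))).2 =
      -edge17 1 s1 s2 t1 t2 G p.1 p.2 := by
  subst e1 e2 e3 e4
  have hdet := dne hm
  rw [rgE hPlA hEdg hB hm _ _ _ _ hu hv (sw p) rfl rfl rfl rfl]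
  exact sw_rw hPlA hEdg hB
    (nng (ne_zero_of_det (a := α) (b := 17 * β) (c := 17 * γ) (d := δ) hdet hu))
    (nng (ne_zero_of_det (a := α) (b := 17 * β) (c := 17 * γ) (d := δ) hdet hv)) p

private lemma memA (hPlA : S17PlA) (hEdg : S17Edg) (hB : BalE (j + 2) G) {u1 u2 v1 v2 : ℤ}
    (hu : u1 ≠ 0 ∨ u2 ≠ 0) (hv : v1 ≠ 0 ∨ v2 ≠ 0) :
    (fun p : Pt (j + 1) => edge17 1 u1 u2 v1 v2 G p.1 p.2) ∈ anti17 (j + 1) :=
  fun p => ⟨shx hPlA hEdg hB hu hv p.1 p.2, shy hPlA hEdg hB hu hv p.1 p.2⟩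

/-- the value at the cusp `u` -/
private noncomputable def W (G : ℤ → ℤ → ℂ) {m : ℕ} (p : Pt m) (u1 u2 : ℤ) : ℂ :=
  G (u1 + 17 ^ 1 * (p.1.val : ℤ) * u2)
    (17 * rY17 1 p.1 p.2 * u1 + (1 + 17 ^ (1 + 1) * (p.1.val : ℤ) * rY17 1 p.1 p.2) * u2)

private lemma eW {m : ℕ} (p : Pt m) (u1 u2 v1 v2 : ℤ) :
    edge17 1 u1 u2 v1 v2 G p.1 p.2 = W G p u1 u2 - W G p v1 v2 := rfl

private lemma Wneg (hPlA : S17PlA) (hB : BalE (j + 2) G) (p : Pt (j + 1))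
    (u1 u2 : ℤ) (hu : u1 ≠ 0 ∨ u2 ≠ 0) : W G p (-u1) (-u2) = W G p u1 u2 := by
  have h := nz (hPlA 1 (j + 1) (j + 1) p.1 p.2).1 hu
  have e := homm hB.1.1 h
  unfold W
  have e1 : -u1 + 17 ^ 1 * (p.1.val : ℤ) * -u2 = -(1 * u1 + 17 ^ 1 * (p.1.val : ℤ) * u2) := by
    ring
  have e2 : 17 * rY17 1 p.1 p.2 * -u1 + (1 + 17 ^ (1 + 1) * (p.1.val : ℤ) * rY17 1 p.1 p.2) * -u2
      = -(17 * rY17 1 p.1 p.2 * u1 + (1 + 17 ^ (1 + 1) * (p.1.val : ℤ) * rY17 1 p.1 p.2) * u2) := by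
    ring
  rw [e1, e2, e, one_mul]

/-- equality of cusps up to sign -/
private def Sg (a b c d : ℤ) : Prop := (a = c ∧ b = d) ∨ (a = -c ∧ b = -d)

private instance (a b c d : ℤ) : Decidable (Sg a b c d) := by unfold Sg; infer_instance

private lemma Wsg (hPlA : S17PlA) (hB : BalE (j + 2) G) (p : Pt (j + 1)) {a b c d : ℤ}
    (h : Sg a b c d) (hc : c ≠ 0 ∨ d ≠ 0) : W G p a b = W G p c d := by
  rcases h with ⟨rfl, rfl⟩ | ⟨rfl, rfl⟩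
  · rfl
  · exact Wneg hPlA hB p c d hc

/-- `b M` on a path -/
private lemma mir (hPlA : S17PlA) (hEdg : S17Edg) (hB : BalE (j + 2) G) {α β γ δ : ℤ}
    (hm : α * δ - 289 * β * γ = 1) {u1 u2 v1 v2 s1 s2 t1 t2 : ℤ}
    (hu : u1 ≠ 0 ∨ u2 ≠ 0) (hv : v1 ≠ 0 ∨ v2 ≠ 0) (hs : s1 ≠ 0 ∨ s2 ≠ 0) (ht : t1 ≠ 0 ∨ t2 ≠ 0)
    (p : Pt (j + 1)) (e1 : Sg (17 * γ * u1 + δ * u2) (α * u1 + 17 * β * u2) s1 s2)
    (e2 : Sg (17 * γ * v1 + δ * v2) (α * v1 + 17 * β * v2) t1 t2) :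
    edge17 1 u1 u2 v1 v2 G (trp 1 α β γ δ (sw p)).1 (trp 1 α β γ δ (sw p)).2 =
      -(W G p s1 s2 - W G p t1 t2) := by
  rw [ci hPlA hEdg hB hm hu hv p, eW, Wsg hPlA hB p e1 hs, Wsg hPlA hB p e2 ht]

/-- `b * M` on a path -/
private lemma rot (hPlA : S17PlA) (hEdg : S17Edg) (hB : BalE (j + 2) G) {α β γ δ : ℤ}
    (hm : α * δ - 289 * β * γ = 1) {u1 u2 v1 v2 s1 s2 t1 t2 : ℤ}
    (hu : u1 ≠ 0 ∨ u2 ≠ 0) (hv : v1 ≠ 0 ∨ v2 ≠ 0) (hs : s1 ≠ 0 ∨ s2 ≠ 0) (ht : t1 ≠ 0 ∨ t2 ≠ 0)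
    (p : Pt (j + 1)) (e1 : Sg (17 * γ * u1 + δ * u2) (-(α * u1 + 17 * β * u2)) s1 s2)
    (e2 : Sg (17 * γ * v1 + δ * v2) (-(α * v1 + 17 * β * v2)) t1 t2) :
    edge17 1 u1 u2 v1 v2 G (trp 1 α β γ δ (ng (sw p))).1 (trp 1 α β γ δ (ng (sw p))).2 =
      -(W G p s1 s2 - W G p t1 t2) := by
  rw [riE hPlA hEdg hB hm _ _ _ _ hu hv p rfl rfl rfl rfl, eW, Wsg hPlA hB p e1 hs, Wsg hPlA hB p e2 ht]

/-- The family `C`. -/
private lemma relC (hPlA : S17PlA) (hEdg : S17Edg) (hB : BalE (j + 2) G) (i : Fin 6) (p : Pt (j + 1)) :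
    edge17 1 (vC i).1 (vC i).2.1 (vC i).2.2.1 (vC i).2.2.2 G (cC i p).1 (cC i p).2 =
      -1 * edge17 1 (vC i).1 (vC i).2.1 (vC i).2.2.1 (vC i).2.2.2 G p.1 p.2 := by
  have h0 : ∀ i : Fin 6, (mC i).1 * (mC i).2.2.2 - 289 * (mC i).2.1 * (mC i).2.2.1 = 1 := by decide
  have h1 : ∀ i : Fin 6, ((vC i).1 ≠ 0 ∨ (vC i).2.1 ≠ 0) ∧ ((vC i).2.2.1 ≠ 0 ∨ (vC i).2.2.2 ≠ 0) := by decide
  have h2 : ∀ i : Fin 6, Sg (17 * (mC i).2.2.1 * (vC i).1 + (mC i).2.2.2 * (vC i).2.1)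
      ((mC i).1 * (vC i).1 + 17 * (mC i).2.1 * (vC i).2.1) (vC i).1 (vC i).2.1 := by decide
  have h3 : ∀ i : Fin 6, Sg (17 * (mC i).2.2.1 * (vC i).2.2.1 + (mC i).2.2.2 * (vC i).2.2.2)
      ((mC i).1 * (vC i).2.2.1 + 17 * (mC i).2.1 * (vC i).2.2.2) (vC i).2.2.1 (vC i).2.2.2 := by decide
  have h := mir hPlA hEdg hB (h0 i) (h1 i).1 (h1 i).2 (h1 i).1 (h1 i).2 p (h2 i) (h3 i)
  rw [neg_one_mul, eW p]
  exact h

/-- The family `A`. -/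
private lemma relA (hPlA : S17PlA) (hEdg : S17Edg) (hB : BalE (j + 2) G) (i : Fin 3) (p : Pt (j + 1)) :
    edge17 1 (vA i).1 (vA i).2.1 (vA i).2.2.1 (vA i).2.2.2 G (rA i p).1 (rA i p).2 =
      1 * edge17 1 (vA i).1 (vA i).2.1 (vA i).2.2.1 (vA i).2.2.2 G p.1 p.2 := by
  have h0 : ∀ i : Fin 3, (mA i).1 * (mA i).2.2.2 - 289 * (mA i).2.1 * (mA i).2.2.1 = 1 := by decide
  have h1 : ∀ i : Fin 3, ((vA i).1 ≠ 0 ∨ (vA i).2.1 ≠ 0) ∧ ((vA i).2.2.1 ≠ 0 ∨ (vA i).2.2.2 ≠ 0) := by decide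
  have h2 : ∀ i : Fin 3, Sg (17 * (mA i).2.2.1 * (vA i).1 + (mA i).2.2.2 * (vA i).2.1)
      (-((mA i).1 * (vA i).1 + 17 * (mA i).2.1 * (vA i).2.1)) (vA i).2.2.1 (vA i).2.2.2 := by decide
  have h3 : ∀ i : Fin 3, Sg (17 * (mA i).2.2.1 * (vA i).2.2.1 + (mA i).2.2.2 * (vA i).2.2.2)
      (-((mA i).1 * (vA i).2.2.1 + 17 * (mA i).2.1 * (vA i).2.2.2)) (vA i).1 (vA i).2.1 := by decide
  have h := rot hPlA hEdg hB (h0 i) (h1 i).1 (h1 i).2 (h1 i).2 (h1 i).1 p (h2 i) (h3 i)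
  rw [one_mul, eW p]
  refine Eq.trans h ?_
  ring

/-- The second paths of the seven pairs. -/
private def wX : Fin 7 → ℤ × ℤ × ℤ × ℤ := ![(1, 1, 8, 7), (22, 19, 7, 6), (7, 6, 6, 5), (6, 5, 5, 4), (13, 10, 4, 3),
  (3, 2, 11, 7), (12, 5, 5, 2)]

/-- The family `X`: the second paths. -/
private lemma relX (hPlA : S17PlA) (hEdg : S17Edg) (hB : BalE (j + 2) G) (i : Fin 7) (p : Pt (j + 1)) :
    ((eX i : ℤ) : ℂ) * edge17 1 (vX i).1 (vX i).2.1 (vX i).2.2.1 (vX i).2.2.2 G (gX i p).1 (gX i p).2 =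
      W G p (wX i).1 (wX i).2.1 - W G p (wX i).2.2.1 (wX i).2.2.2 := by
  have h0 : ∀ i : Fin 7, (mX i).1 * (mX i).2.2.2 - 289 * (mX i).2.1 * (mX i).2.2.1 = 1 := by decide
  have h1 : ∀ i : Fin 7, ((vX i).1 ≠ 0 ∨ (vX i).2.1 ≠ 0) ∧ ((vX i).2.2.1 ≠ 0 ∨ (vX i).2.2.2 ≠ 0) := by decide
  have h1' : ∀ i : Fin 7, ((wX i).1 ≠ 0 ∨ (wX i).2.1 ≠ 0) ∧ ((wX i).2.2.1 ≠ 0 ∨ (wX i).2.2.2 ≠ 0) := by decide
  have h2 : ∀ i : Fin 7, (eX i = -1 ∧ Sg (17 * (mX i).2.2.1 * (vX i).1 + (mX i).2.2.2 * (vX i).2.1)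
      ((mX i).1 * (vX i).1 + 17 * (mX i).2.1 * (vX i).2.1) (wX i).1 (wX i).2.1 ∧
      Sg (17 * (mX i).2.2.1 * (vX i).2.2.1 + (mX i).2.2.2 * (vX i).2.2.2)
      ((mX i).1 * (vX i).2.2.1 + 17 * (mX i).2.1 * (vX i).2.2.2) (wX i).2.2.1 (wX i).2.2.2) ∨
      (eX i = 1 ∧ Sg (17 * (mX i).2.2.1 * (vX i).1 + (mX i).2.2.2 * (vX i).2.1)
      (-((mX i).1 * (vX i).1 + 17 * (mX i).2.1 * (vX i).2.1)) (wX i).2.2.1 (wX i).2.2.2 ∧
      Sg (17 * (mX i).2.2.1 * (vX i).2.2.1 + (mX i).2.2.2 * (vX i).2.2.2)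
      (-((mX i).1 * (vX i).2.2.1 + 17 * (mX i).2.1 * (vX i).2.2.2)) (wX i).1 (wX i).2.1) := by decide
  rcases h2 i with ⟨he, ha, hb⟩ | ⟨he, ha, hb⟩
  · have hg : gX i p = trp 1 (mX i).1 (mX i).2.1 (mX i).2.2.1 (mX i).2.2.2 (sw p) := by
      unfold gX
      rw [if_pos he]
    rw [hg, mir hPlA hEdg hB (h0 i) (h1 i).1 (h1 i).2 (h1' i).1 (h1' i).2 p ha hb, he]
    push_cast
    ring
  · have hg : gX i p = trp 1 (mX i).1 (mX i).2.1 (mX i).2.2.1 (mX i).2.2.2 (ng (sw p)) := by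
      unfold gX
      rw [if_neg (by rw [he]; norm_num)]
    rw [hg, rot hPlA hEdg hB (h0 i) (h1 i).1 (h1 i).2 (h1' i).2 (h1' i).1 p ha hb, he]
    push_cast
    ring

/-- The square `∞, 1, 0, -1`. -/
private lemma rel0 (hPlA : S17PlA) (hEdg : S17Edg) (hB : BalE (j + 2) G) (p : Pt (j + 1)) :
    alt ng sw (fun p : Pt (j + 1) => edge17 1 1 0 1 1 G p.1 p.2) p = 0 := by
  change edge17 1 1 0 1 1 G p.1 p.2 + edge17 1 1 0 1 1 G (sw p).1 (sw p).2 -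
    edge17 1 1 0 1 1 G (ng p).1 (ng p).2 - edge17 1 1 0 1 1 G (ng (sw p)).1 (ng (sw p)).2 = 0
  rw [ng_rw hPlA hEdg hB (by norm_num) (by norm_num) (sw p),
    ng_rw hPlA hEdg hB (by norm_num) (by norm_num) p,
    sw_rw hPlA hEdg hB (u1 := 1) (by norm_num) (by norm_num) p,
    sw_rw hPlA hEdg hB (u1 := -1) (by norm_num) (by norm_num) p]
  have a1 := Wneg hPlA hB p 1 0 (by norm_num)
  have a2 := Wneg hPlA hB p 0 1 (by norm_num)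
  have a3 := Wneg hPlA hB p (-1) 1 (by norm_num)
  rw [neg_zero] at a1 a2
  rw [neg_neg] at a3
  simp only [eW]
  rw [a1, a2, a3]
  ring

/-- The square `∞, 8, 17/2, 9`. -/
private lemma rel8 (hPlA : S17PlA) (hEdg : S17Edg) (hB : BalE (j + 2) G) (p : Pt (j + 1)) :
    alt (dR 1) c8 (fun p : Pt (j + 1) => edge17 1 1 0 8 1 G p.1 p.2) p = 0 := by
  change edge17 1 1 0 8 1 G p.1 p.2 + edge17 1 1 0 8 1 G (c8 p).1 (c8 p).2 -
    edge17 1 1 0 8 1 G (dR 1 p).1 (dR 1 p).2 -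
    edge17 1 1 0 8 1 G (dR 1 (c8 p)).1 (dR 1 (c8 p)).2 = 0
  have hd : ∀ q : Pt (j + 1), edge17 1 1 0 8 1 G (dR 1 q).1 (dR 1 q).2 =
      edge17 1 (-1) 0 9 1 G q.1 q.2 := fun q =>
    rgE hPlA hEdg hB (by norm_num) (-1) 0 9 1 (by norm_num) (by norm_num) q
      (by norm_num) (by norm_num) (by norm_num) (by norm_num)
  have h1 : edge17 1 1 0 8 1 G (c8 p).1 (c8 p).2 = -edge17 1 17 2 (-8) (-1) G p.1 p.2 :=
    ciE hPlA hEdg hB (by norm_num) 17 2 (-8) (-1) (by norm_num) (by norm_num) p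
      (by norm_num) (by norm_num) (by norm_num) (by norm_num)
  have h2 : edge17 1 (-1) 0 9 1 G (c8 p).1 (c8 p).2 = -edge17 1 (-17) (-2) 9 1 G p.1 p.2 :=
    ciE hPlA hEdg hB (by norm_num) (-17) (-2) 9 1 (by norm_num) (by norm_num) p
      (by norm_num) (by norm_num) (by norm_num) (by norm_num)
  rw [hd p, hd (c8 p), h1, h2]
  have a1 := Wneg hPlA hB p 1 0 (by norm_num)
  rw [neg_zero] at a1
  simp only [eW]
  rw [Wneg hPlA hB p 17 2 (by norm_num), Wneg hPlA hB p 8 1 (by norm_num), a1]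
  ring

/-- The path `{2, 7/3}`. -/
private lemma relW (hPlA : S17PlA) (hEdg : S17Edg) (hB : BalE (j + 2) G) (p : Pt (j + 1)) :
    wF (pf18 (j + 1) G) p = edge17 1 2 1 7 3 G p.1 p.2 := by
  have h : wF (pf18 (j + 1) G) p = edge17 1 1 0 8 1 G p.1 p.2 - edge17 1 1 0 1 1 G p.1 p.2 -
      ∑ i : Fin 6, edge17 1 (vC i).1 (vC i).2.1 (vC i).2.2.1 (vC i).2.2.2 G p.1 p.2 -
      ∑ i : Fin 3, edge17 1 (vA i).1 (vA i).2.1 (vA i).2.2.1 (vA i).2.2.2 G p.1 p.2 -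
      ∑ i : Fin 7, edge17 1 (vX i).1 (vX i).2.1 (vX i).2.2.1 (vX i).2.2.2 G p.1 p.2 -
      ∑ i : Fin 7, ((eX i : ℤ) : ℂ) *
        edge17 1 (vX i).1 (vX i).2.1 (vX i).2.2.1 (vX i).2.2.2 G (gX i p).1 (gX i p).2 := rfl
  rw [h, Finset.sum_congr rfl fun i _ => relX hPlA hEdg hB i p]
  simp only [eW]
  have hC : ∑ i : Fin 6, (W G p (vC i).1 (vC i).2.1 - W G p (vC i).2.2.1 (vC i).2.2.2) =
      (W G p 8 7 - W G p 22 19) + (W G p 5 4 - W G p 13 10) + (W G p 4 3 - W G p 3 2) +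
      (W G p 11 7 - W G p 5 3) + (W G p 8 3 - W G p 3 1) + (W G p 4 1 - W G p 9 2) := by
    rw [Fin.sum_univ_six]; rfl
  have hA : ∑ i : Fin 3, (W G p (vA i).1 (vA i).2.1 - W G p (vA i).2.2.1 (vA i).2.2.2) =
      (W G p 5 3 - W G p 2 1) + (W G p 5 2 - W G p 8 3) + (W G p 3 1 - W G p 7 2) := by
    rw [Fin.sum_univ_three]; rfl
  have hX : ∑ i : Fin 7, (W G p (vX i).1 (vX i).2.1 - W G p (vX i).2.2.1 (vX i).2.2.2) =
      (W G p 9 2 - W G p 5 1) + (W G p 13 2 - W G p 7 1) + (W G p 7 3 - W G p 12 5) +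
      (W G p 7 2 - W G p 4 1) + (W G p 5 1 - W G p 6 1) + (W G p 6 1 - W G p 13 2) +
      (W G p 7 1 - W G p 8 1) := by
    rw [Fin.sum_univ_seven]; rfl
  have hX' : ∑ i : Fin 7, (W G p (wX i).1 (wX i).2.1 - W G p (wX i).2.2.1 (wX i).2.2.2) =
      (W G p 1 1 - W G p 8 7) + (W G p 22 19 - W G p 7 6) + (W G p 7 6 - W G p 6 5) +
      (W G p 6 5 - W G p 5 4) + (W G p 13 10 - W G p 4 3) + (W G p 3 2 - W G p 11 7) +
      (W G p 12 5 - W G p 5 2) := by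
    rw [Fin.sum_univ_seven]; rfl
  rw [hC, hA, hX, hX']
  ring

/-- The square `2, 7/3, 9/4, 11/5`. -/
private lemma relQ (hPlA : S17PlA) (hEdg : S17Edg) (hB : BalE (j + 2) G) (p : Pt (j + 1)) :
    sm4 cQ cR (wF (pf18 (j + 1) G)) p = 0 := by
  unfold sm4
  rw [relW hPlA hEdg hB p, relW hPlA hEdg hB (cR p), relW hPlA hEdg hB (cQ p),
    relW hPlA hEdg hB (cQ (cR p))]
  have h1 : edge17 1 2 1 7 3 G (cR p).1 (cR p).2 = -edge17 1 (-2) (-1) 11 5 G p.1 p.2 :=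
    ciE hPlA hEdg hB (by norm_num) (-2) (-1) 11 5 (by norm_num) (by norm_num) p
      (by norm_num) (by norm_num) (by norm_num) (by norm_num)
  have h2 : edge17 1 2 1 7 3 G (cQ p).1 (cQ p).2 = -edge17 1 (-9) (-4) 7 3 G p.1 p.2 :=
    ciE hPlA hEdg hB (by norm_num) (-9) (-4) 7 3 (by norm_num) (by norm_num) p
      (by norm_num) (by norm_num) (by norm_num) (by norm_num)
  have h3 : edge17 1 2 1 7 3 G (cQ (cR p)).1 (cQ (cR p)).2 = -edge17 1 (-9) (-4) 7 3 G ((cR p)).1 ((cR p)).2 :=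
    ciE hPlA hEdg hB (by norm_num) (-9) (-4) 7 3 (by norm_num) (by norm_num) ((cR p))
      (by norm_num) (by norm_num) (by norm_num) (by norm_num)
  have h4 : edge17 1 (-9) (-4) 7 3 G (cR p).1 (cR p).2 = -edge17 1 (-9) (-4) 11 5 G p.1 p.2 :=
    ciE hPlA hEdg hB (by norm_num) (-9) (-4) 11 5 (by norm_num) (by norm_num) p
      (by norm_num) (by norm_num) (by norm_num) (by norm_num)
  rw [h1, h2, h3, h4]
  simp only [eW]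
  rw [Wneg hPlA hB p 2 1 (by norm_num), Wneg hPlA hB p 9 4 (by norm_num)]
  ring

private lemma memE (hPlA : S17PlA) (hEdg : S17Edg) (hB : BalE (j + 2) G) :
    pf18 (j + 1) G ∈ subE (j + 1) := by
  have hX : ∀ i : Fin 7, ((vX i).1 ≠ 0 ∨ (vX i).2.1 ≠ 0) ∧ ((vX i).2.2.1 ≠ 0 ∨ (vX i).2.2.2 ≠ 0) := by decide
  have hC : ∀ i : Fin 6, ((vC i).1 ≠ 0 ∨ (vC i).2.1 ≠ 0) ∧ ((vC i).2.2.1 ≠ 0 ∨ (vC i).2.2.2 ≠ 0) := by decide
  have hA : ∀ i : Fin 3, ((vA i).1 ≠ 0 ∨ (vA i).2.1 ≠ 0) ∧ ((vA i).2.2.1 ≠ 0 ∨ (vA i).2.2.2 ≠ 0) := by decide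
  refine ⟨⟨memA hPlA hEdg hB (by norm_num) (by norm_num), memA hPlA hEdg hB (by norm_num) (by norm_num),
      fun i => memA hPlA hEdg hB (hX i).1 (hX i).2⟩,
    ⟨fun i => ⟨memA hPlA hEdg hB (hC i).1 (hC i).2, fun p => relC hPlA hEdg hB i p⟩,
      fun i => ⟨memA hPlA hEdg hB (hA i).1 (hA i).2, fun p => relA hPlA hEdg hB i p⟩⟩,
    fun p => rel0 hPlA hEdg hB p, fun p => rel8 hPlA hEdg hB p, fun p => relQ hPlA hEdg hB p⟩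

end

/-- Module E1A of the levels `17^n`. -/
theorem hE1A : StHE1a := by
  intro he ha _ k G hk hB
  obtain ⟨j, rfl⟩ : ∃ j, k = j + 2 := ⟨k - 2, by omega⟩
  exact memE ha he hB

end Pool.Agent.Helper55.P17
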